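import Pool.Agent.Run7.h615.WL.Log
import Pool.Agent.Run7.h615.WL.Weil

/-!
# MP_0f76a4_ag: weight-monodromy for rigid-analytic varieties and the low degrees of the strata
-/

set_option autoImplicit false

universe u v

namespace Pool.Agent.Results.MP_0f76a4_ag.LowDegreesOfStrata

open Pool.Agent.Y143 Run7.h615.WL

/-- **Weight-monodromy for the middle cohomology of rigid-analytic varieties with projective
reduction, in any dimension, if the strata have simple cohomology in low degrees.**

Let `X` be a smooth proper rigid-analytic variety over `K` and `V = H^m(X_C)` with the action of the
Weil group `W` of `K` and the monodromy operator `N` (`R : WeilRep`; `deg g = 1` for the geometric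
Frobenius lifts). Let `X'` be a smooth proper rigid-analytic variety of dimension `n` over a finite
extension `K'` of `K`, with residue field with `q ^ f` elements, which has a strictly semistable formal
model over the ring of integers with *projective* special fibre, and such that `V` is a direct
summand of `H^m(X'_C)` (`D : Domination`; for example `X' = X`, `K' = K`, or a generically finite
map from `X'` to `X`). The cohomology of `X'` is given by the weight spectral sequence
(`X' : SemistableModel`); the hard Lefschetz theorem is *not* assumed for `X'` (it is not known for
rigid-analytic varieties which are not algebraic).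

`Y^(a+1)` is the disjoint union of the intersections of `a + 1` different components of the special
fibre; it is smooth projective of dimension `n - a`. Suppose (`LowAt`) that for all `a ≥ 0` and
`w ≥ 2` with `a + 1 + w ≤ min(m, 2 n - m)` (so `w < d = dim Y^(a+1)`, and `d ≥ 3`)

* `H^2(Y^(a+1))` is spanned by classes of divisors, if `w = 2`;
* `H^w(Y^(a+1)) = L H^(w-2)(Y^(a+1))`, if `w ≥ 3` (`L` is the class of an ample divisor),

in both cases up to classes with restriction zero to `Y^(a+2)` (or, more generally, a space `T` as in
`GeneratedBy`). If `m = n`, or if the graded pieces of weight `m + e` and `m - e` of the weight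
filtration of `H^m(X'_C)` have the same dimension for all `e` (this is necessary for the conclusion
for `X'`), then for all `g` in the Weil group and all `j` the eigenvalues of `g` on `gr_j` of the
monodromy filtration of `H^m(X_C)` are `q`-Weil numbers of weight `(m + j) deg g`; in particular, for
all geometric Frobenius lifts they are `q`-Weil numbers of weight `m + j`.

There is no condition on the cohomology of the strata in the middle degree and on the strata of
dimension one and two. For example, the conditions hold for all `m` if the strata of dimension at
least three are complete intersections in projective spaces or blow-ups of such complete intersections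
along complete intersections of codimension two. -/
theorem result {Ω : Type u} [Field Ω] [CharZero Ω] [IsAlgClosed Ω] {Γ : Type} {n q f : ℕ}
    (X' : SemistableModel.{u, v} Ω Γ n (q ^ f)) (A : DivisorClasses X'.toSpecialFibre) (m : ℕ)
    (h : ∀ a w : ℕ, 2 ≤ w → a + 1 + w ≤ m → a + 1 + w + m ≤ 2 * n → LowAt A a w)
    (hm : m = n ∨ IsSymmetric X' m)
    {W : Type} [Group W] {deg : W →* Multiplicative ℤ} (R : WeilRep.{u, v} Ω deg q)
    (D : Domination R f (X'.actV m X'.frob) (X'.N m)) :
    R.IsPure m := by
  obtain ⟨-, -, h3, h4⟩ := low_degrees X' A m h
  refine isPureRep_of_dominated R D (fun h0 => X'.q_ne (by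
    rw [h0, zero_pow D.extension.pos.ne'])) (isMWPure_of_kato X' m ?_)
  rcases hm with hm | hm
  · exact h4 hm
  · exact h3.2 hm

end Pool.Agent.Results.MP_0f76a4_ag.LowDegreesOfStrata
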