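import Pool.Agent.Run7.h307.WM2.Main
import Pool.Agent.Run7.h615.WL.Weil

/-!
# MP_0f76a4_ag: weight-monodromy for rigid-analytic varieties near a projective normal crossing fibre

Let `K` be a finite extension of `ℚ_p` (`p ≠ ℓ`), whose residue field has `q` elements, `B` an open
rigid-analytic polydisc over `K` with coordinates `u_1, …, u_s`, and `D = D_1 ∪ … ∪ D_r`, with `D_j` given by
`u_j = 0`. Let `f : 𝒳 → B` be a proper flat family of rigid-analytic varieties, smooth over `B - D`, with
unipotent local monodromy at `0`. The fibres need not be algebraic, but we suppose that the family
degenerates to a *projective* variety: for a curve `C → B` through `0`, `u_j = (unit) u ^ (a_j)`, `a_j ≥ 1`,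
the family over `C` has a semistable model, whose degenerate fibre `Y` is a projective variety over
`K` with strict normal crossings. (For `r = s = 1` this is the case if `𝒳` is smooth over `K` and the
fibre over `0` is a reduced projective divisor with strict normal crossings.) The degeneration takes
place in characteristic zero. With its log structure, `Y` is a projective SNCL scheme over a log point
over `K`; its log cohomology is the limit cohomology `V`. It has the weight spectral sequence which
starts with the cohomology of the strata of `Y`, and the weight filtration is the monodromy filtration
of the geometric monodromy, since `K` can be embedded in `ℂ` (Steenbrink, Guillén and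
Navarro Aznar, Nakayama). No hard Lefschetz theorem for the fibres `X_t` is used (it is not known for
rigid-analytic varieties which are not algebraic).

Suppose that the strata of `Y` (the intersections of its components, smooth projective varieties over
`K`) satisfy the weight-monodromy conjecture; only the cohomology groups in the degrees `m` with
`3 ≤ m ≤ 2 dim - 3` matter, since the others are known to be mw pure. For fibres of dimension three
this means the `H^3` of the components of `Y`, and it is enough that these are uniruled threefolds for
which `H^3` comes from curves, for example rationally connected (Bloch-Srinivas). For fibres of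
dimension at most two there is no condition.

Then all fibres `X_t` (`t` a point of `B - D` with values in a finite extension `K(t)` of `K`, close to
`0`), and all smooth proper rigid-analytic varieties over subfields `K'` of `K(t)` whose cohomology is
a direct summand of the cohomology of `X_t` (for example if there is a generically finite map from
`X_t`), satisfy the conclusion of the problem, unless the vector `(v(u_1(t)), …, v(u_r(t)))` of
valuations lies in an exceptional set `S`. It is contained in an algebraic hypersurface and it contains
only finitely many points of each ray in the open cone `v_j > 0`. (For `r = 1` it is finite; so there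
are no exceptions near `0`.)

Idea of the proof. The monodromy of `X_t` is (up to a factor) `N_K + ∑ c_j N_j`, where `c_j` is the
valuation of `u_j(t)`. The graded pieces of the monodromy filtration of `∑ b_j N_j`, `b_j > 0`, are mw
pure with respect to `N_K`, since the `E_2` term of the weight spectral sequence of `Y` is. So there are
two commuting Lefschetz operators on the bigraded space, whose sum is a Lefschetz operator. This shows
that `(N_K + X ∑ b_j N_j)^a`, where `X` is a variable, is injective from the part of weight `m + a` to the
part of weight `m - a`; these parts have the same dimension, and so `(N_K + ∑ c_j N_j)^a` is bijective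
unless a certain nonzero polynomial (a determinant) vanishes at `c`.
-/

set_option autoImplicit false

open Pool.Agent.Y143 Run7.h307.WM Run7.h307.WM2 Run7.h615.WL

namespace Pool.Agent.Results.MP_0f76a4_ag.NearNormalCrossings

/-- **Weight-monodromy for rigid-analytic varieties near a projective normal crossing fibre.** Let
`X` be a proper family of rigid-analytic varieties with `r` parameters over the `p`-adic field `K`, with
a projective degenerate fibre `Y` over `0` (for a curve in the base), such that for all `a` and all `m`
with `3 ≤ m ≤ 2 dim Y^(a+1) - 3` the cohomology `H^m(Y^(a+1))` is mw pure of weight `m`, or a direct factor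
of a twist of a mw pure representation (`h`).

Then there is a set `S` of exceptional vectors of valuations, contained in the zero set of a nonzero
polynomial, and with finitely many points on each ray of the open cone, such that for all `t` with
`v(u(t)) ∉ S` the following holds in all degrees `m`. Let `X'` be a smooth proper rigid-analytic variety
over a field `K'`, with residue field with `q'` elements, `V = H^m(X'_C)` with the action `ρ` of the Weil
group `W` of `K'` and the monodromy operator `N` (`R : WeilRep`), such that `K(t)` is a finite extension
of `K'`, of residue degree `f` (so `q' ^ f = q ^ deg t`), and `V` is a direct summand of `H^m(X_t)` over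
`K(t)` (`D : Domination`; for example `X' = X_t`). Then for all geometric Frobenius lifts, and more
generally for all `g ∈ W`, and all `j`, every eigenvalue of `g` on the graded piece `gr_j` of the
monodromy filtration of `V` is a `q'`-Weil number of weight `(m + j) deg g` (`R.IsPure m`). -/
theorem result {Ω : Type} [Field Ω] [CharZero Ω] [IsAlgClosed Ω] {n q r : ℕ} (hq : 1 < q)
    (X : PolyFamily Ω n q r) (h : X.StrataPure) :
    ∃ S : Set (Fin r → ℚ),
      (∃ P : MvPolynomial (Fin r) ℚ, P ≠ 0 ∧ ∀ c ∈ S, MvPolynomial.eval c P = 0) ∧
      (∀ b : Fin r → ℕ, (∀ j, 0 < b j) → {s : ℚ | (fun j => s * b j) ∈ S}.Finite) ∧
      ∀ t : X.fibres.Point, X.fibres.valuation t ∉ S → ∀ (m : ℕ) (W : Type) (_ : Group W)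
        (deg : W →* Multiplicative ℤ) (q' f : ℕ) (R : WeilRep.{0, 0} Ω deg q')
        (_ : Domination R f (X.fibres.frob t m) (X.fibres.mon t m)),
        q' ^ f = q ^ X.fibres.deg t → R.IsPure m := by
  obtain ⟨S, hP, hray, hS⟩ := main hq X h
  refine ⟨S, hP, hray, fun t ht m W _ deg q' f R D hf => ?_⟩
  have h1 := hS t ht m
  rw [← hf] at h1
  refine isPureRep_of_dominated R D (fun h0 => ?_) h1
  have h2 : 0 < q ^ X.fibres.deg t := pow_pos (by omega) _
  rw [← hf, h0, zero_pow D.extension.pos.ne'] at h2
  exact lt_irrefl _ h2

end Pool.Agent.Results.MP_0f76a4_ag.NearNormalCrossings
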