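import Pool.Agent.Run7.h615.WS.Low
import Pool.Agent.Run7.h615.WL.Weil

/-!
# MP_0f76a4_ag: weight-monodromy for rigid-analytic varieties whose reduction has fibred components
and simple Frobenius spectrum
-/

set_option autoImplicit false

universe u v

namespace Pool.Agent.Results.MP_0f76a4_ag.SimpleSpectrum

open Pool.Agent.Y143 Pool.Agent.Helper60K9.KL Run7.h615.WL Run7.h615.WS

/-- **Weight-monodromy for rigid-analytic varieties with projective reduction with fibred components
and simple Frobenius spectrum, in any dimension.**

Let `X` be a smooth proper rigid-analytic variety over `K` and `V = H^m(X_C)` with the action of
the Weil group `W` of `K` and the monodromy operator `N` (`R : WeilRep`; `deg g = 1` for the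
geometric Frobenius lifts). Let `X'` be a smooth proper rigid-analytic variety of dimension `n`
over a finite extension `K'` of `K`, with residue field with `q ^ f` elements, which has a strictly
semistable formal model over the ring of integers with *projective* special fibre, and such that
`V` is a direct summand of `H^m(X'_C)` (`D : Domination`; for example `X' = X`, `K' = K`, or a
generically finite map from `X'` to `X`). The cohomology of `X'` is given by the weight spectral
sequence (`X' : SemistableModel`); the hard Lefschetz theorem is *not* assumed for `X'` (it is not
known for rigid-analytic varieties which are not algebraic).

`Y^(a+1)`, of dimension `n - a`, is the disjoint union of the intersections of `a + 1` different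
components of the special fibre of the model of `X'`; let `Y_i` (`i : I`) be the components of
`Y^(a+1)` and `D_j` (`j : J`) the components of `Y^(a+2)`, defined over the residue field. Suppose
that for all `a ≥ 0` and `w ≥ 2` with `a + 1 + w ≤ min(m, 2 n - m)` (for a threefold this is `a =
0`, `w = 2` only) the following condition (`FibredAt`) is true. The cohomology `H^w(Y^(a+1))` is
generated by

* the classes of divisors, if `w = 2`, and the multiples of the class `L` of an ample divisor, if
  `w ≥ 3`;
* classes with restriction zero to `Y^(a+2)`;
* for each `i`, a space `T i` of classes on `Y_i` which comes from a smooth projective variety
  `S_i` of dimension `w`, the base of a fibration of `Y_i` (or of a covering of `Y_i`): the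
  restriction from `T i` to `D_j` multiplies the intersection form `form i` of `S_i` by the degree
  `deg i j ≥ 0` of `D_j ∩ L^(d-1-w)` over `S_i` (`d = n - a`), and it is zero if this degree is
  zero.

Moreover, for each link, that is a `D_j` which is mapped onto `S_i` for at least two of the `Y_i`
which contain it, the Frobenius has simple spectrum on the transcendental part of `H^w(D_j)`: the
generalized eigenspaces in the classes orthogonal to the classes of divisors (for `w = 2`), or to
the multiples of `L` (for `w ≥ 3`), have dimension at most one; this is only necessary for the
eigenvalues `α` which occur on `T i` for two of these `i`.

If `m = n`, or if the graded pieces of weight `m + e` and `m - e` of the weight filtration of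
`H^m(X'_C)` have the same dimension for all `e` (this is necessary for the conclusion for `X'`),
then for all `g` in the Weil group and all `j` the eigenvalues of `g` on `gr_j` of the monodromy
filtration of `H^m(X_C)` are `q`-Weil numbers of weight `(m + j) deg g`; in particular, for all
geometric Frobenius lifts they are `q`-Weil numbers of weight `m + j`.

For threefolds the condition is satisfied if all components `Y_i` of the special fibre are
uniruled, or have no transcendental cycles, and the Frobenius on the transcendental part of the
second cohomology of the double surfaces has no multiple eigenvalue: if `P → Y_i` is a dominant map
of degree `e` and `P` has a fibration over a surface `S` whose general fibre is a rational curve,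
with image `C` in `Y_i`, then `H^2(Y_i)` is the direct sum of the classes of divisors and the space
`T i` of the classes `x` whose pull-back to `P` is the pull-back of a class `x_S` on `S` which is
orthogonal to the classes of curves, `form i x y = (x_S . y_S) / e` and `deg i j = D_j . C`. There
is no condition on the dual complex, on the geometric genus of the double surfaces or on `H^3`, and
the Tate conjecture is not assumed. In dimension `n ≥ 4` an example is a chain or a cycle of
projective line bundles over smooth complete intersections `S_i` of dimension `n - 1`, glued along
sections, such that the Frobenius has simple spectrum on the primitive cohomology of the `S_i`, if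
all strata of dimension at least three are complete intersections, or blow-ups of complete
intersections along complete intersections of codimension two.

The fields of the structures are known facts: `SemistableModel` is the cohomology of the strata and
of `X'` with the weight spectral sequence; `DivisorClasses` has the Hodge index theorem and Weil's
positivity; the composites of the restrictions `T i → H^w(D_j)` and their transposes `H^w(D_j) → T
i'` are given by algebraic correspondences, so together with powers of the Frobenius they have
rational traces (`HasRationalTraces`). -/
theorem result {Ω : Type u} [Field Ω] [CharZero Ω] [IsAlgClosed Ω] {Γ : Type} {n q f : ℕ}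
    (X' : SemistableModel.{u, v} Ω Γ n (q ^ f)) (A : DivisorClasses X'.toSpecialFibre) (m : ℕ)
    (h : ∀ a w : ℕ, 2 ≤ w → a + 1 + w ≤ m → a + 1 + w + m ≤ 2 * n → FibredAt A a w)
    (hm : m = n ∨ IsSymmetric X' m)
    {W : Type} [Group W] {deg : W →* Multiplicative ℤ} (R : WeilRep.{u, v} Ω deg q)
    (D : Domination R f (X'.actV m X'.frob) (X'.N m)) :
    R.IsPure m := by
  obtain ⟨-, -, h3, h4⟩ := low_of_fibred X' A m h
  refine isPureRep_of_dominated R D (fun h0 => X'.q_ne (by
    rw [h0, zero_pow D.extension.pos.ne'])) (isMWPure_of_kato X' m ?_)
  rcases hm with hm | hm
  · exact h4 hm
  · exact h3.2 hm

end Pool.Agent.Results.MP_0f76a4_ag.SimpleSpectrum
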