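import Pool.Agent.Run7.h615.WM.LogThree
import Pool.Agent.Run7.h615.WM.IntDefs
import Pool.Agent.Run7.h615.WL.Log
import Pool.Agent.Run7.h615.WL.Weil

/-!
# MP_0f76a4_ag: weight-monodromy for rigid-analytic threefolds with projective, uniruled reduction
-/

set_option autoImplicit false

universe u v

namespace Pool.Agent.Results.MP_0f76a4_ag.UniruledReduction

open Pool.Agent.Y143 Pool.Agent.X302.MW Pool.Agent.Helper60K9.KL Run7.h615.WL Run7.h615.WM
open scoped NNReal

/-- **Weight-monodromy for rigid-analytic threefolds with projective, uniruled reduction whose links
form a forest.**

Let `X` be a smooth proper rigid-analytic variety over `K` and `V = H^m(X_C)` with the action of the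
Weil group `W` of `K` and the monodromy operator `N` (`R : WeilRep`; `deg g = 1` for the geometric
Frobenius lifts). Let `X'` be a smooth proper rigid-analytic variety of dimension three over a finite
extension `K'` of `K`, with residue field with `q ^ f` elements, which has a strictly semistable formal
model over the ring of integers with *projective* special fibre, and such that `V` is a direct
summand of `H^m(X'_C)` (`D : Domination`; for example `X' = X`, `K' = K`, or a generically finite
map from `X'` to `X`). The cohomology of `X'` is given by the weight spectral sequence
(`X' : SemistableModel`); the hard Lefschetz theorem is *not* assumed for `X'` (it is not known for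
rigid-analytic varieties which are not algebraic).

Let `Y_i` (`i : I`) be the components of the special fibre of the model of `X'` and `D_j` (`j : J`) the
double surfaces. Suppose that

(1) the `Y_i` satisfy the Tate conjecture for divisors (`hT`);

(2) on the non-Tate part of `H^2(Y_i)` (the Frobenius eigenvalues which are not of the form `q' ζ`,
`q' = q ^ f`, with a root of unity `ζ`), the forms `x|D_j . y|D_j` given by the double surfaces `D_j` in
`Y_i` are multiples `deg i j * form i x y`, with `deg i j` a natural number, of one nondegenerate form,
and the restriction to `D_j` is zero if `deg i j = 0` (`F`);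

(3) for each non-Tate `α`, the graph whose vertices are the components and whose edges are the links
(the `D_j` with `deg i j ≠ 0` and `α` an eigenvalue on `H^2(Y_i)`, for both components `Y_i` which
contain `D_j`) is a forest, with an orientation such that for each link `D_j` the geometric genus of
`D_j` is at most one or `α` has the same multiplicity in `H^2(D_j)` and in `H^2` of the component
above `D_j` (`hF`).

If `m` is different from two and four (in particular for the middle cohomology, `m = 3`), or if
`PrimGysin` is true (a class in `H^1(Y^(2))` with restriction zero to `Y^(3)` whose Gysin image in `H^3` of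
the components is primitive has Gysin image zero; for example, if `H^1` of the double surfaces or
`H^3` of the components vanishes), then for all `g` in the Weil group and all `j` the eigenvalues of `g`
on `gr_j` of the monodromy filtration of `H^m(X_C)` are `q`-Weil numbers of weight `(m + j) deg g`; in
particular, for all geometric Frobenius lifts they are `q`-Weil numbers of weight `m + j`.

Condition (2) is satisfied if each `Y_i` has one of the following properties: `H^2(Y_i)` has no
non-Tate part; `Y_i` is uniruled (`deg i j` is the intersection number of `D_j` with the general
rational curve `C` of a covering family, parametrized by a surface `S`, and `(L . C) * form i x y =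
x . y . L` for an ample `L`; this is because non-Tate classes on `Y_i` come from classes on `S`); the
Picard number of `Y_i` is one; `Y_i` is fibred over a curve in K3 surfaces and the `D_j` in `Y_i` are
fibres or have no non-Tate classes.

The other hypotheses are known. `hI`: the Frobenius eigenvalues on the strata are algebraic integers.
`hR`: the characteristic polynomials of the Frobenius on `H^2(Y_i)` and `H^2(D_j)` are rational. `hS`:
for a `p`-adic valuation `w`, Manin's integrality of the Newton polygons of the Frobenius on
`H^2(Y_i)` and on `H^2(D_j)`, and the Newton polygon of `H^2(D_j)` lies above the Hodge polygon; `pg j`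
is the geometric genus of `D_j`. -/
theorem result {Ω : Type u} [Field Ω] [CharZero Ω] [IsAlgClosed Ω] {Γ : Type} {q f : ℕ}
    (hq : IsPrimePow q) (X' : SemistableModel.{u, v} Ω Γ 3 (q ^ f))
    (A : DivisorClasses X'.toSpecialFibre) (hI : HasIntegralFrobenius X'.toSpecialFibre)
    (hT : A.TateConj 0) {I J : Type} [Fintype I] [Fintype J]
    (C : Components X'.toSpecialFibre I J) (hR : C.IsRational) (w : Valuation Ω ℝ≥0)
    (pg : J → ℕ) (hS : HasSlopes C w pg) (F : ProportionalForms C)
    (hF : ∀ α : Ω, ¬ IsTateNumber (q ^ f) α → F.IsForest pg α)
    (m : ℕ) (hm : (m ≠ 2 ∧ m ≠ 4) ∨ PrimGysin X'.toSpecialFibre 0)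
    {W : Type} [Group W] {deg : W →* Multiplicative ℤ} (R : WeilRep.{u, v} Ω deg q)
    (D : Domination R f (X'.actV m X'.frob) (X'.N m)) :
    R.IsPure m := by
  have h := divCrit_forest X'.toSpecialFibre rfl (hq.pow D.extension.pos.ne') A hI hT C hR F w pg
    hS hF
  refine isPureRep_of_dominated R D (fun h0 => X'.q_ne (by
    rw [h0, zero_pow D.extension.pos.ne'])) (isMWPure_of_kato X' m ?_)
  rcases hm with hm | hm
  · exact kato_odd X' A h m hm.1 hm.2
  · exact kato_all X' A h hm m

end Pool.Agent.Results.MP_0f76a4_ag.UniruledReduction
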